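import Pool.Agent.Lib.MP_426cf1_co.Final

/-!
# Graphs without a minor `K_{1,r-1} + H`, for `r` large compared with `H`

Let `H` be a connected graph with `h ≥ 3` vertices, `r ≥ 10 ^ 8 * h * ⌊log₂ h⌋`, and let `G` be a finite graph without a
`(K_{1,r-1} + H)`-minor. Then `G` can be coloured from any lists of `r + 1` colours so that every vertex
has at most one neighbour of its own colour; no colour class contains a model of `H`.

The colour classes are the fibres of `c`; models of minors are given by disjoint connected branch sets, as in the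
frozen statement of the problem.
-/

set_option autoImplicit false

namespace Pool.Agent.Results.MP_426cf1_co.LargeStars

theorem result (r : ℕ) {W : Type*} [Fintype W] (H : SimpleGraph W) (hH : H.Connected)
    (hW : 3 ≤ Fintype.card W)
    (hr : 10 ^ 8 * (Fintype.card W * Nat.log 2 (Fintype.card W)) ≤ r)
    {V : Type*} [Fintype V] (G : SimpleGraph V)
    (hG : ¬ ∃ f : ((Fin 1 ⊕ Fin (r-1)) ⊕ W) → Set V,
          (∀ a b, a ≠ b → Disjoint (f a) (f b)) ∧
          (∀ a, (G.induce (f a)).Connected) ∧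
          (∀ a b, (SimpleGraph.fromRel (fun p q : (Fin 1 ⊕ Fin (r-1)) ⊕ W =>
              Sum.elim
                (fun s : Fin 1 ⊕ Fin (r-1) =>
                  Sum.elim (fun t : Fin 1 ⊕ Fin (r-1) =>
                      (completeBipartiteGraph (Fin 1) (Fin (r-1))).Adj s t)
                    (fun _ : W => True) q)
                (fun x : W =>
                  Sum.elim (fun _ : Fin 1 ⊕ Fin (r-1) => True)
                    (fun y : W => H.Adj x y) q) p)).Adj a b →
            ∃ x ∈ f a, ∃ y ∈ f b, G.Adj x y))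
    {C : Type*} (A : V → Finset C) (hA : ∀ v, r + 1 ≤ (A v).card) :
    ∃ c : V → C, (∀ v, c v ∈ A v) ∧
      (∀ v y y', G.Adj v y → G.Adj v y' → c y = c v → c y' = c v → y = y') ∧
      ¬ ∃ i : C, ∃ f : W → Set V,
          (∀ a, f a ⊆ {v | c v = i}) ∧
          (∀ a b, a ≠ b → Disjoint (f a) (f b)) ∧
          (∀ a, (G.induce (f a)).Connected) ∧
          (∀ a b, H.Adj a b → ∃ x ∈ f a, ∃ y ∈ f b, G.Adj x y) := by
  obtain ⟨c, h1, h2, h3⟩ := Pool.Agent.Lib.MP_426cf1_co.main H hH hW hr G (by
    rintro ⟨f, _, hf2, hf3, hf4⟩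
    exact hG ⟨f, hf2, hf3, hf4⟩) A hA
  refine ⟨c, h1, h2, ?_⟩
  rintro ⟨i, f, hf1, hf2, hf3, hf4⟩
  exact h3 i ⟨f, hf1, hf2, hf3, hf4⟩

end Pool.Agent.Results.MP_426cf1_co.LargeStars
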